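import Pool.Agent.KS6_95.BD.Up

set_option autoImplicit false

/-!
# Box dimension of Riemann-type series graphs: the exact supremum

For every `δ ∈ (0, 1]` the supremum of the upper box dimensions of the graphs of `G_δ` over all
admissible `g` with (H) and (NV) is `2 - δ/2`.
-/

namespace Pool.Agent.Results.MP_dace02_an.ExactSupremum

open Filter Topology Real Pool.Agent.Results.MP_dace02_an.No Pool.Agent.KS6_95.BD

/-- **Theorem.** Let `0 < δ ≤ 1`. `Expands g C` says that `g` is a continuous `1`-periodic real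
function with the Fourier expansion `g(x) = ∑_{k ∈ ℤ} C_k e^{2πikx}` and `C_{-k}` conjugate to `C_k`.

* If `g` satisfies (H) then the upper box dimension of the graph of `G_δ` is at most `2 - δ/2`.
* The least upper bound of the upper box dimensions of the graphs of `G_δ`, over all `g` which satisfy
  (H) and (NV), is `2 - δ/2`.
* For every `v < 2 - δ/2` there is `g` satisfying (H) and (NV) with upper box dimension at least
  `v`; in particular there is one with upper box dimension larger than `7/4 - δ/2`. -/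
theorem result (δ : ℝ) (hδ : 0 < δ) (hδ1 : δ ≤ 1) :
    (∀ (g : ℝ → ℝ) (C : ℤ → ℂ), Expands g C → CondH δ C →
      upperDim (G δ g) ≤ ((2 - δ / 2 : ℝ) : EReal)) ∧
    IsLUB {D : EReal | ∃ (g : ℝ → ℝ) (C : ℤ → ℂ), Expands g C ∧ CondH δ C ∧ CondNV δ C ∧
      D = upperDim (G δ g)} ((2 - δ / 2 : ℝ) : EReal) ∧
    (∀ v : ℝ, v < 2 - δ / 2 → ∃ (g : ℝ → ℝ) (C : ℤ → ℂ), Expands g C ∧ CondH δ C ∧ CondNV δ C ∧
      (v : EReal) ≤ upperDim (G δ g)) ∧
    ∃ (g : ℝ → ℝ) (C : ℤ → ℂ), Expands g C ∧ CondH δ C ∧ CondNV δ C ∧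
      ((7 / 4 - δ / 2 : ℝ) : EReal) < upperDim (G δ g) := by
  have h3 : ∀ v : ℝ, v < 2 - δ / 2 → ∃ (g : ℝ → ℝ) (C : ℤ → ℂ), Expands g C ∧ CondH δ C ∧
      CondNV δ C ∧ (v : EReal) ≤ upperDim (G δ g) := by
    intro v hv
    obtain ⟨g, C, h1, h2, h3, h4⟩ := lower δ hδ hδ1 (min (2 - v) 1)
      (lt_min (by linarith) (by linarith)) ((min_le_right _ _).trans (by norm_num))
    refine ⟨g, C, h1, h2, h3, le_trans ?_ h4⟩
    rw [EReal.coe_le_coe_iff]
    linarith [min_le_left (2 - v) 1]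
  refine ⟨fun g C h hH => upper hδ hδ1 h hH, ⟨?_, ?_⟩, h3, ?_⟩
  · rintro D ⟨g, C, h, hH, _, rfl⟩
    exact upper hδ hδ1 h hH
  · intro B hB
    by_contra hlt
    push Not at hlt
    obtain ⟨v, hv1, hv2⟩ := EReal.lt_iff_exists_real_btwn.mp hlt
    rw [EReal.coe_lt_coe_iff] at hv2
    obtain ⟨g, C, h1, h2, h4, h5⟩ := h3 v hv2
    have h6 := hB ⟨g, C, h1, h2, h4, rfl⟩
    exact absurd (lt_of_lt_of_le hv1 (h5.trans h6)) (lt_irrefl _)
  · obtain ⟨g, C, h1, h2, h4, h5⟩ := h3 (15 / 8 - δ / 2) (by linarith)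
    refine ⟨g, C, h1, h2, h4, lt_of_lt_of_le ?_ h5⟩
    rw [EReal.coe_lt_coe_iff]
    linarith

end Pool.Agent.Results.MP_dace02_an.ExactSupremum
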